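import Pool.Agent.X34.CY.Stm

/-! Part CY_AN1 of the project CY (helper34, MP_6efeb4_pr). -/

set_option autoImplicit false

namespace Pool.Agent.X283.CY

open Finset Filter Topology

theorem key {c : ℝ} (hc0 : 0 < c) (hc1 : c ≤ 1) : ∃ y0 : ℝ, 2 ≤ y0 ∧ ∀ y : ℝ, y0 ≤ y → ∀ g : ℝ,
    2 ≤ g → g ≤ y ^ (1 + c / 2) → y + 2 * g ≤ (y - 1) * g ^ (5 * c / 6) := by
  set b : ℝ := 2 ^ (5 * c / 6) with hb
  have hb1 : 1 < b := Real.one_lt_rpow (by norm_num) (by positivity)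
  have e1 : ∀ᶠ y : ℝ in atTop, (4 : ℝ) ≤ y ^ (5 * c / 12) :=
    (tendsto_rpow_atTop (by positivity)).eventually (eventually_ge_atTop 4)
  have e2 : ∀ᶠ y : ℝ in atTop, (4 : ℝ) ≤ y ^ (c / 3) :=
    (tendsto_rpow_atTop (by positivity)).eventually (eventually_ge_atTop 4)
  have e3 : ∀ᶠ y : ℝ in atTop, max 1 ((2 + b) / (b - 1)) ≤ y ^ (1 / 2 : ℝ) :=
    (tendsto_rpow_atTop (by norm_num)).eventually (eventually_ge_atTop _)
  obtain ⟨y1, hy1⟩ := eventually_atTop.1 (e1.and (e2.and e3))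
  refine ⟨max 4 y1, le_trans (by norm_num) (le_max_left _ _), fun y hy g hg2 hg => ?_⟩
  have hy4 : 4 ≤ y := (le_max_left _ _).trans hy
  obtain ⟨h1, h2, h3⟩ := hy1 y ((le_max_right _ _).trans hy)
  have hy0 : 0 < y := by linarith
  have hg0 : 0 < g := by linarith
  by_cases hgs : g ≤ y ^ (1 / 2 : ℝ)
  · set z : ℝ := y ^ (1 / 2 : ℝ) with hz
    have hz1 : 1 ≤ z := (le_max_left _ _).trans h3
    have hz2 : (2 + b) / (b - 1) ≤ z := (le_max_right _ _).trans h3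
    have hzz : z * z = y := by
      rw [hz, ← Real.rpow_add hy0]
      norm_num
    have h4 : 2 + b ≤ z * (b - 1) := by rwa [div_le_iff₀ (by linarith)] at hz2
    have h5 : b ≤ g ^ (5 * c / 6) := Real.rpow_le_rpow (by norm_num) hg2 (by positivity)
    have h6 : y + 2 * z ≤ (y - 1) * b := by
      have h7 : (2 + b) * z ≤ z * (b - 1) * z := mul_le_mul_of_nonneg_right h4 (by linarith)
      have h8 : b ≤ b * z := le_mul_of_one_le_right (by linarith) hz1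
      have h9 : z * (b - 1) * z = (b - 1) * y := by rw [← hzz]; ring
      nlinarith
    have h7 : (y - 1) * b ≤ (y - 1) * g ^ (5 * c / 6) :=
      mul_le_mul_of_nonneg_left h5 (by linarith)
    linarith
  · push Not at hgs
    by_cases hgy : g ≤ y
    · have h4 : (4 : ℝ) ≤ g ^ (5 * c / 6) := by
        have h5 : (y ^ (1 / 2 : ℝ)) ^ (5 * c / 6) ≤ g ^ (5 * c / 6) :=
          Real.rpow_le_rpow (by positivity) hgs.le (by positivity)
        rw [← Real.rpow_mul hy0.le] at h5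
        have e : 1 / 2 * (5 * c / 6) = 5 * c / 12 := by ring
        rw [e] at h5
        linarith
      have h6 : (y - 1) * 4 ≤ (y - 1) * g ^ (5 * c / 6) :=
        mul_le_mul_of_nonneg_left h4 (by linarith)
      linarith
    · push Not at hgy
      -- 4 g ^ (1 - 5c/6) ≤ y
      have h4 : g ^ (1 - 5 * c / 6) ≤ y ^ (1 - c / 3) := by
        calc g ^ (1 - 5 * c / 6) ≤ (y ^ (1 + c / 2)) ^ (1 - 5 * c / 6) :=
              Real.rpow_le_rpow hg0.le hg (by linarith)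
          _ = y ^ ((1 + c / 2) * (1 - 5 * c / 6)) := by rw [← Real.rpow_mul hy0.le]
          _ ≤ y ^ (1 - c / 3) := by
              apply Real.rpow_le_rpow_of_exponent_le (by linarith)
              nlinarith
      have h5 : 4 * y ^ (1 - c / 3) ≤ y := by
        calc 4 * y ^ (1 - c / 3) ≤ y ^ (c / 3) * y ^ (1 - c / 3) :=
              mul_le_mul_of_nonneg_right h2 (by positivity)
          _ = y := by
              rw [← Real.rpow_add hy0]
              have : c / 3 + (1 - c / 3) = 1 := by ring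
              rw [this, Real.rpow_one]
      have h6 : g = g ^ (1 - 5 * c / 6) * g ^ (5 * c / 6) := by
        rw [← Real.rpow_add hg0]
        have : 1 - 5 * c / 6 + 5 * c / 6 = 1 := by ring
        rw [this, Real.rpow_one]
      have h7 : 4 * g ≤ y * g ^ (5 * c / 6) := by
        have h8 : 4 * g ^ (1 - 5 * c / 6) ≤ y := by linarith
        calc 4 * g = 4 * g ^ (1 - 5 * c / 6) * g ^ (5 * c / 6) := by
              conv_lhs => rw [h6]
              ring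
          _ ≤ y * g ^ (5 * c / 6) := mul_le_mul_of_nonneg_right h8 (by positivity)
      have h9 : 0 ≤ g ^ (5 * c / 6) := by positivity
      -- (y - 1) ≥ 3/4 y
      nlinarith

theorem term {c : ℝ} {k d R g : ℕ} {y0 Wc lam Bg : ℝ} (hk : 1 ≤ k) (hlam : 0 < lam)
    (hy0 : 2 ≤ y0)
    (hkey : ∀ y : ℝ, y0 ≤ y → ∀ g : ℝ, 2 ≤ g → g ≤ y ^ (1 + c / 2) →
      y + 2 * g ≤ (y - 1) * g ^ (5 * c / 6))
    (hR : y0 * k ≤ R) (hd : (d : ℝ) ≤ (1 - c) * k) (hg2 : 2 ≤ g)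
    (hg : (g : ℝ) ≤ ((R : ℝ) / k) ^ (1 + c / 2))
    (hW : lam ^ k * ((R : ℝ) - k) ^ k ≤ k.factorial * Wc)
    (hB : Bg * k.factorial ≤ lam ^ k * ((R : ℝ) / g + 2 * k) ^ k) :
    (g : ℝ) ^ d * Bg / Wc ≤ ((g : ℝ) ^ (-(c / 6))) ^ k := by
  have hk0 : (0 : ℝ) < k := by exact_mod_cast hk
  have hg2' : (2 : ℝ) ≤ g := by exact_mod_cast hg2
  have hg0 : (0 : ℝ) < g := by linarith
  have hf : (0 : ℝ) < k.factorial := by exact_mod_cast k.factorial_pos
  have hRk : (0 : ℝ) < (R : ℝ) - k := by nlinarith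
  have hW0 : 0 < Wc := by
    have h1 : 0 < lam ^ k * ((R : ℝ) - k) ^ k := by positivity
    have h2 : 0 < (k.factorial : ℝ) * Wc := lt_of_lt_of_le h1 hW
    exact pos_of_mul_pos_right h2 hf.le
  have hy : y0 ≤ (R : ℝ) / k := by rwa [le_div_iff₀ hk0]
  have h1 := hkey _ hy g hg2' hg
  -- the base
  have h2 : (R : ℝ) / g + 2 * k ≤ ((R : ℝ) - k) * (g : ℝ) ^ (5 * c / 6 - 1) := by
    have e1 : (R : ℝ) / g + 2 * k = (k / g) * ((R : ℝ) / k + 2 * g) := by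
      field_simp
    have e2 : ((R : ℝ) - k) * (g : ℝ) ^ (5 * c / 6 - 1) =
        (k / g) * (((R : ℝ) / k - 1) * (g : ℝ) ^ (5 * c / 6)) := by
      rw [Real.rpow_sub_one hg0.ne']
      field_simp
    rw [e1, e2]
    exact mul_le_mul_of_nonneg_left h1 (by positivity)
  have h3 : ((R : ℝ) / g + 2 * k) ^ k ≤ (((R : ℝ) - k) * (g : ℝ) ^ (5 * c / 6 - 1)) ^ k :=
    pow_le_pow_left₀ (by positivity) h2 k
  have h4 : (g : ℝ) ^ d ≤ ((g : ℝ) ^ (1 - c)) ^ k := by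
    rw [← Real.rpow_natCast, ← Real.rpow_natCast, ← Real.rpow_mul hg0.le]
    exact Real.rpow_le_rpow_of_exponent_le (by linarith) hd
  have h5 : ((g : ℝ) ^ (1 - c)) ^ k * (((R : ℝ) - k) * (g : ℝ) ^ (5 * c / 6 - 1)) ^ k =
      ((R : ℝ) - k) ^ k * ((g : ℝ) ^ (-(c / 6))) ^ k := by
    rw [← mul_pow, ← mul_pow]
    congr 1
    have : (g : ℝ) ^ (-(c / 6)) = (g : ℝ) ^ (1 - c) * (g : ℝ) ^ (5 * c / 6 - 1) := by
      rw [← Real.rpow_add hg0]
      congr 1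
      ring
    rw [this]
    ring
  have hgd : 0 ≤ (g : ℝ) ^ d := by positivity
  have hq : 0 ≤ ((g : ℝ) ^ (-(c / 6))) ^ k := by positivity
  rw [div_le_iff₀ hW0]
  have h6 : ((g : ℝ) ^ d * Bg) * k.factorial ≤ (((g : ℝ) ^ (-(c / 6))) ^ k * Wc) * k.factorial := by
    calc ((g : ℝ) ^ d * Bg) * k.factorial = (g : ℝ) ^ d * (Bg * k.factorial) := by ring
      _ ≤ (g : ℝ) ^ d * (lam ^ k * ((R : ℝ) / g + 2 * k) ^ k) := mul_le_mul_of_nonneg_left hB hgd
      _ = lam ^ k * ((g : ℝ) ^ d * ((R : ℝ) / g + 2 * k) ^ k) := by ring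
      _ ≤ lam ^ k * (((g : ℝ) ^ (1 - c)) ^ k * (((R : ℝ) - k) * (g : ℝ) ^ (5 * c / 6 - 1)) ^ k) := by
          apply mul_le_mul_of_nonneg_left _ (by positivity)
          exact mul_le_mul h4 h3 (by positivity) (by positivity)
      _ = lam ^ k * ((R : ℝ) - k) ^ k * ((g : ℝ) ^ (-(c / 6))) ^ k := by rw [h5]; ring
      _ ≤ (k.factorial * Wc) * ((g : ℝ) ^ (-(c / 6))) ^ k := mul_le_mul_of_nonneg_right hW hq
      _ = (((g : ℝ) ^ (-(c / 6))) ^ k * Wc) * k.factorial := by ring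
  exact le_of_mul_le_mul_right h6 hf

theorem t_AN1 : Pool.Agent.X34.CY.S_AN1 := by
  intro c δ lam hc hδ hlam
  have hlam0 : 0 < lam := by rcases hlam with h | h <;> rw [h] <;> norm_num
  by_cases hc1 : c ≤ 1
  · obtain ⟨y0, hy02, hkey⟩ := key hc hc1
    set S : ℝ := ∑' n : ℕ, 1 / (n : ℝ) ^ 2 with hS
    have hsum : Summable (fun n : ℕ => 1 / (n : ℝ) ^ 2) :=
      Real.summable_one_div_nat_pow.2 (by norm_num)
    have hS0 : 0 ≤ S := tsum_nonneg fun n => by positivity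
    obtain ⟨m, hm⟩ := pow_unbounded_of_one_lt (S / δ) (by norm_num : (1 : ℝ) < 2)
    rw [div_lt_iff₀ hδ] at hm
    refine ⟨⌈y0⌉₊ + ⌈6 * ((m : ℝ) + 2) / c⌉₊ + 1, ?_⟩
    intro k d R Wc B hk hR hd hW hB
    have hk1 : 1 ≤ k := by omega
    have hk0 : (0 : ℝ) < k := by exact_mod_cast hk1
    have hy0K : y0 ≤ ((⌈y0⌉₊ + ⌈6 * ((m : ℝ) + 2) / c⌉₊ + 1 : ℕ) : ℝ) := by
      have h1 := Nat.le_ceil y0
      have h2 : (⌈y0⌉₊ : ℝ) ≤ ((⌈y0⌉₊ + ⌈6 * ((m : ℝ) + 2) / c⌉₊ + 1 : ℕ) : ℝ) :=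
        Nat.cast_le.2 (by omega)
      linarith
    have hR' : y0 * k ≤ R := (mul_le_mul_of_nonneg_right hy0K hk0.le).trans hR
    have hkm : (m : ℝ) + 2 ≤ c / 6 * k := by
      have h1 := Nat.le_ceil (6 * ((m : ℝ) + 2) / c)
      have h2 : (⌈6 * ((m : ℝ) + 2) / c⌉₊ : ℝ) ≤ k := Nat.cast_le.2 (by omega)
      have h3 : 6 * ((m : ℝ) + 2) / c ≤ k := h1.trans h2
      rw [div_le_iff₀ hc] at h3
      linarith
    have hterm : ∀ g ∈ (Icc 2 (2 * R)).filter (fun g : ℕ => (g : ℝ) ≤ ((R : ℝ) / k) ^ (1 + c / 2)),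
        (g : ℝ) ^ d * (B g : ℝ) / Wc ≤ 1 / (2 : ℝ) ^ m * (1 / (g : ℝ) ^ 2) := by
      intro g hg
      rw [mem_filter, mem_Icc] at hg
      obtain ⟨⟨hg2, _⟩, hg3⟩ := hg
      have hg2' : (2 : ℝ) ≤ g := by exact_mod_cast hg2
      have hg0 : (0 : ℝ) < g := by linarith
      refine (term hk1 hlam0 hy02 hkey hR' hd hg2 hg3 hW (hB g (by omega))).trans ?_
      have h1 : ((g : ℝ) ^ (-(c / 6))) ^ k ≤ (g : ℝ) ^ (-((m : ℝ) + 2)) := by
        rw [← Real.rpow_natCast, ← Real.rpow_mul hg0.le]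
        apply Real.rpow_le_rpow_of_exponent_le (by linarith)
        linarith
      refine h1.trans ?_
      have h2 : (g : ℝ) ^ (-((m : ℝ) + 2)) = 1 / (g : ℝ) ^ m * (1 / (g : ℝ) ^ 2) := by
        rw [Real.rpow_neg hg0.le]
        have : ((m : ℝ) + 2) = ((m + 2 : ℕ) : ℝ) := by push_cast; ring
        rw [this, Real.rpow_natCast, pow_add, one_div, one_div, mul_inv]
      rw [h2]
      apply mul_le_mul_of_nonneg_right _ (by positivity)
      exact one_div_le_one_div_of_le (by positivity) (pow_le_pow_left₀ (by norm_num) hg2' m)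
    refine (sum_le_sum hterm).trans ?_
    rw [← mul_sum]
    have h1 := hsum.sum_le_tsum ((Icc 2 (2 * R)).filter
      (fun g : ℕ => (g : ℝ) ≤ ((R : ℝ) / k) ^ (1 + c / 2))) fun n _ => by positivity
    have h2 : (0 : ℝ) < 2 ^ m := by positivity
    calc 1 / (2 : ℝ) ^ m * ∑ g ∈ (Icc 2 (2 * R)).filter
          (fun g : ℕ => (g : ℝ) ≤ ((R : ℝ) / k) ^ (1 + c / 2)), 1 / (g : ℝ) ^ 2
        ≤ 1 / (2 : ℝ) ^ m * S := mul_le_mul_of_nonneg_left h1 (by positivity)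
      _ ≤ δ := by
          rw [one_div_mul_eq_div, div_le_iff₀ h2]
          linarith
  · refine ⟨1, fun k d R Wc B hk _ hd _ _ => ?_⟩
    exfalso
    push Not at hc1
    have hk0 : (1 : ℝ) ≤ k := by exact_mod_cast hk
    have hd0 : (0 : ℝ) ≤ d := Nat.cast_nonneg d
    nlinarith

end Pool.Agent.X283.CY
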